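import Mathlib
import Pool.Agent.Q330.HP.Link

set_option autoImplicit false

/-!
# MP_f1b42c_lc, Q1: a reset `m`-tuple of an `m`-primitive automaton in polynomial time

There is a polynomial-time algorithm `G` which, given the transition tables of an `m`-primitive
automaton, outputs a reset `m`-tuple `α` of it (in binary). The tuple has moreover a positive
Hurwitz product: for all states `p`, `q` some word with the letter counts `α` sends `p` to `q`.
-/

namespace Pool.Agent.Results.MP_f1b42c_lc.PolynomialTime

open Pool.Agent.NPC Pool.Agent.NPC.Poly Pool.Agent.Q330.HP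

/-- the action of a word on the states: `w = w₁ w₂ ⋯ w_k` acts as `a_{w₁} ∘ a_{w₂} ∘ ⋯ ∘ a_{w_k}` -/
def act {m n : ℕ} (a : Fin m → Fin n → Fin n) : List (Fin m) → Fin n → Fin n
  | [], p => p
  | c :: w, p => a c (act a w p)

/-- `α` is a reset `m`-tuple: its length is at least one, and there is a state `q₀` such that every
state is sent to `q₀` by some word which contains, for every `i`, exactly `α i` letters `i` -/
def IsReset {m n : ℕ} (a : Fin m → Fin n → Fin n) (α : Fin m → ℕ) : Prop :=
  1 ≤ ∑ i, α i ∧ ∃ q₀ : Fin n, ∀ p : Fin n, ∃ w : List (Fin m),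
    (∀ i, w.count i = α i) ∧ act a w p = q₀

/-- the matrices of the automaton: the entry `(q, p)` of `mats a i` is `1` if `a i p = q`, and
otherwise `0` -/
def mats {m n : ℕ} (a : Fin m → Fin n → Fin n) : Fin m → Matrix (Fin n) (Fin n) ℚ :=
  fun i q p => if a i p = q then 1 else 0

/-- the transition tables: the list of the lists of the values of the actions -/
def tables {m n : ℕ} (a : Fin m → Fin n → Fin n) : List (List ℕ) :=
  List.ofFn fun i => List.ofFn fun p => (a i p : ℕ)

/-! ### The algorithm -/

/-- the matrices, computed from the tables -/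
def toMats (T : List (List ℕ)) : List (List (List ℚ)) :=
  T.map fun t => (List.range t.length).map fun q => t.map fun x => bif decide (x = q) then 1 else 0

lemma poly_toMats : Poly toMats := by
  unfold toMats
  apply map (F := fun (_ : List (List ℕ)) (t : List ℕ) =>
    (List.range t.length).map fun q => t.map fun x => bif decide (x = q) then (1 : ℚ) else 0) id
  apply map (F := fun (s : List (List ℕ) × List ℕ) (q : ℕ) =>
    s.2.map fun x => bif decide (x = q) then (1 : ℚ) else 0) (UPoly.length (snd id)).range
  apply map (F := fun (s : (List (List ℕ) × List ℕ) × ℕ) (x : ℕ) =>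
    bif decide (x = s.2) then (1 : ℚ) else 0) (snd (fst id))
  exact Poly.cond (decide_eq (snd id) (snd (fst id))) (const 1) (const 0)

lemma toMats_tables {m n : ℕ} (a : Fin m → Fin n → Fin n) :
    toMats (tables a) = code (mats a) := by
  unfold toMats tables code mats
  rw [List.map_ofFn]
  congr 1
  funext i
  simp only [Function.comp, List.length_ofFn, List.map_ofFn]
  apply List.ext_getElem
  · simp
  · intro k hk1 hk2
    rw [List.getElem_map, List.getElem_range, List.getElem_ofFn]
    congr 1
    funext p
    have : (decide ((a i p : ℕ) = k)) = decide (a i p = (⟨k, by simpa using hk1⟩ : Fin n)) := by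
      rw [decide_eq_decide]
      exact ⟨fun h => Fin.ext h, fun h => congrArg Fin.val h⟩
    simp only [Function.comp]
    rw [this]
    by_cases h : a i p = (⟨k, by simpa using hk1⟩ : Fin n)
    · simp [h]
    · simp [h]

lemma wk_act {m n : ℕ} (a : Fin m → Fin n → Fin n) (w : List (Fin m)) (q p : Fin n) :
    Wk (EA (mats a)) (w.map Fin.val) q p ↔ act a w p = q := by
  induction w generalizing q with
  | nil =>
    show (q : ℕ) = p ↔ p = q
    exact ⟨fun h => (Fin.ext h).symm, fun h => by rw [h]⟩
  | cons c w ih =>
    show (∃ k, EA (mats a) (c : ℕ) q k ∧ Wk (EA (mats a)) (w.map Fin.val) k p) ↔ _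
    constructor
    · rintro ⟨k, ⟨_, _, hk, h1⟩, h2⟩
      have h3 := (ih ⟨k, hk⟩).1 h2
      show a c (act a w p) = q
      rw [h3]
      by_contra h4
      unfold mats at h1
      rw [if_neg h4] at h1
      exact lt_irrefl _ h1
    · intro h
      refine ⟨act a w p, ⟨c.2, q.2, (act a w p).2, ?_⟩, (ih _).2 rfl⟩
      have h1 : a c (act a w p) = q := h
      show (0 : ℚ) < mats a c q (act a w p)
      unfold mats
      rw [if_pos h1]
      norm_num

lemma words_of_positive {m n : ℕ} (a : Fin m → Fin n → Fin n) (α : Fin m → ℕ)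
    (h : Positive (hurwitz (mats a) α)) (p q : Fin n) :
    ∃ w : List (Fin m), (∀ i, w.count i = α i) ∧ act a w p = q := by
  have hA : ∀ c u v, 0 ≤ mats a c u v := by
    intro c u v
    unfold mats
    split_ifs <;> norm_num
  obtain ⟨w, h1, h2⟩ := (hurwitz_pos_iff hA α q p).1 (h q p)
  obtain ⟨l, rfl⟩ := exists_lift w (m := m) (fun c hc => by
    obtain ⟨u, v, h, _⟩ := wk_used h1 c hc
    exact h)
  refine ⟨l, fun i => ?_, (wk_act a l q p).1 h1⟩
  rw [← h2 i, List.count_map_of_injective _ _ Fin.val_injective]

/-- **Q1 of MP_f1b42c_lc has a positive answer.** -/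
theorem result : ∃ G : List (List ℕ) → List ℕ, Poly G ∧
    ∀ (m n : ℕ) (a : Fin m → Fin n → Fin n), 0 < n → MPrimitive (mats a) →
      ∃ α : Fin m → ℕ, G (tables a) = List.ofFn α ∧ IsReset a α ∧
        Positive (hurwitz (mats a) α) ∧
        ∀ p q : Fin n, ∃ w : List (Fin m), (∀ i, w.count i = α i) ∧ act a w p = q := by
  refine ⟨fun T => alg (toMats T), poly_alg.comp poly_toMats, fun m n a hn h => ?_⟩
  have hA : ∀ c u v, 0 ≤ mats a c u v := by
    intro c u v
    unfold mats
    split_ifs <;> norm_num
  obtain ⟨α, h1, h2, h3⟩ := alg_correct hn hA h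
  refine ⟨α, ?_, ⟨h2, ⟨0, hn⟩, fun p => words_of_positive a α h3 p _⟩, h3,
    words_of_positive a α h3⟩
  show alg (toMats (tables a)) = List.ofFn α
  rw [toMats_tables]
  exact h1

end Pool.Agent.Results.MP_f1b42c_lc.PolynomialTime
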